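import Pool.Agent.Y553.PL.Stm

/-! Job PL-GOODEX: good parameters exist for every numbering (helper592). -/

set_option autoImplicit false

namespace Pool.Agent.Y592.PL

open Pool.Agent.Results.MP_abe753_lc.PlusNotLocal (IsNumbering exists_translation)
open Pool.Agent.Y553.PL

theorem t_GOODEX (hHASH : St_HASH) (hHSEM : St_HSEM) (hCARDW : St_CARDW) : St_GOODEX := by
  classical
  intro V _ G f hf hAx m k l P hkl hmk hcard hne
  have hk : 0 < k := by omega
  have hmem : ∀ v, 1 ≤ f v ∧ f v ≤ Nat.card V := fun v => hf.mapsTo (Set.mem_univ v)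
  have hinj : ∀ v w, f v = f w → v = w := fun v w hvw =>
    hf.injOn (Set.mem_univ v) (Set.mem_univ w) hvw
  obtain ⟨x, y, hxy, htr⟩ := exists_translation hf (G.colour 0) (G.colour 4) hAx.disj hne
    (hCARDW V G m k l P hAx hkl hmk hcard)
  have htr' : ∀ s, ∃ t, s ∈ G.colour 0 → (t ∈ G.colour 4 ∧
      (f s + f x = f t ∨ f t + f y = f s)) := by
    intro s
    by_cases hs : s ∈ G.colour 0
    · obtain ⟨t, ht⟩ := htr s hs
      exact ⟨t, fun _ => ht⟩
    · exact ⟨s, fun hs' => (hs hs').elim⟩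
  choose τ hτ using htr'
  have det1 : ∀ s t t', (f s + f x = f t ∨ f t + f y = f s) →
      (f s + f x = f t' ∨ f t' + f y = f s) → t = t' := by
    intro s t t' h1 h2
    have a1 := hmem t
    have a2 := hmem t'
    exact hinj _ _ (by omega)
  have det2 : ∀ s s' t, (f s + f x = f t ∨ f t + f y = f s) →
      (f s' + f x = f t ∨ f t + f y = f s') → s = s' := by
    intro s s' t h1 h2
    have a1 := hmem s
    have a2 := hmem s'
    exact hinj _ _ (by omega)
  have hfin := Set.toFinite (G.colour 0)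
  have hw : ∀ s, s ∈ G.colour 0 → ∃ g, P.w g = τ s := by
    intro s hs
    obtain ⟨g, -, hg⟩ := P.w_bij.surjOn (hτ s hs).1
    exact ⟨g, hg⟩
  obtain ⟨T, hT⟩ : ∃ T : Finset (Fin k → Fin l),
      T = Finset.univ.filter fun g => ∃ s, s ∈ G.colour 0 ∧ τ s = P.w g := ⟨_, rfl⟩
  have hTm : ∀ g, g ∈ T ↔ ∃ s, s ∈ G.colour 0 ∧ τ s = P.w g := by
    intro g
    rw [hT, Finset.mem_filter]
    exact ⟨fun h => h.2, fun h => ⟨Finset.mem_univ _, h⟩⟩
  have hTc : T.card ≤ 4 * k ^ m := by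
    have h1 : T.image P.w ⊆ hfin.toFinset.image τ := by
      intro v hv
      obtain ⟨g, hg, rfl⟩ := Finset.mem_image.1 hv
      obtain ⟨s, hs, hsg⟩ := (hTm g).1 hg
      exact Finset.mem_image.2 ⟨s, hfin.mem_toFinset.2 hs, hsg⟩
    have h2 : (T.image P.w).card = T.card :=
      Finset.card_image_of_injOn fun g _ g' _ h =>
        P.w_bij.injOn (Set.mem_univ g) (Set.mem_univ g') h
    calc T.card = (T.image P.w).card := h2.symm
      _ ≤ (hfin.toFinset.image τ).card := Finset.card_le_card h1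
      _ ≤ hfin.toFinset.card := Finset.card_image_le
      _ = (G.colour 0).ncard := (Set.ncard_eq_toFinset_card _ hfin).symm
      _ ≤ 4 * k ^ m := hcard
  have hTT : T.card * T.card ≤ l ^ (2 * m + 4) := by
    calc T.card * T.card ≤ (4 * k ^ m) * (4 * k ^ m) := Nat.mul_le_mul hTc hTc
      _ = 2 ^ 4 * k ^ (2 * m) := by
          rw [two_mul m, pow_add]
          ring
      _ ≤ k ^ 4 * k ^ (2 * m) := Nat.mul_le_mul_right _ (Nat.pow_le_pow_left (by omega) 4)
      _ = k ^ (2 * m + 4) := by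
          rw [pow_add]
          ring
      _ ≤ l ^ (2 * m + 4) := Nat.pow_le_pow_left hkl _
  have z0 : Fin l := ⟨0, by omega⟩
  obtain ⟨Q, hQ⟩ := hHASH k l (2 * m + 4) P.acc P.acc_inj P.acc_q z0 T hTT
  refine ⟨x, y, P.β z0, P.β_bij.mapsTo (Set.mem_univ _), fun i => P.w (Q i),
    fun i => P.w_bij.mapsTo (Set.mem_univ _), ?_, ?_⟩
  · intro s hs
    obtain ⟨g, hg⟩ := hw s hs
    refine ⟨fun i => P.β (hash P.acc z0 (Q i) g),
      fun i => P.β_bij.mapsTo (Set.mem_univ _), τ s, (hτ s hs).1, (hτ s hs).2, fun i => ?_⟩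
    rw [← hg]
    exact (hHSEM V G k l P hk z0 (Q i) g _).2 rfl
  · rintro c hc s hs s' hs' ⟨t, -, hst, hht⟩ ⟨t', -, hst', hht'⟩
    have e1 : t = τ s := det1 s _ _ hst (hτ s hs).2
    have e2 : t' = τ s' := det1 s' _ _ hst' (hτ s' hs').2
    obtain ⟨g, hg⟩ := hw s hs
    obtain ⟨g', hg'⟩ := hw s' hs'
    have hgg : g = g' := by
      refine hQ g ((hTm g).2 ⟨s, hs, hg.symm⟩) g' ((hTm g').2 ⟨s', hs', hg'.symm⟩) fun i => ?_
      obtain ⟨j, -, hj⟩ := P.β_bij.surjOn (hc i)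
      have h1 := hht i
      have h2 := hht' i
      rw [e1, ← hg, ← hj] at h1
      rw [e2, ← hg', ← hj] at h2
      rw [(hHSEM V G k l P hk z0 (Q i) g j).1 h1, (hHSEM V G k l P hk z0 (Q i) g' j).1 h2]
    have e3 : t = t' := by
      rw [e1, e2, ← hg, ← hg', hgg]
    rw [← e3] at hst'
    exact det2 s s' t hst hst'

end Pool.Agent.Y592.PL
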